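import Pool.Agent.H28.N6.Targets

/-!
# Volumes over a locally compact ultrametric field
-/

set_option autoImplicit false

namespace Pool.Agent.H14.N6D

open MeasureTheory Pool.Agent.H28.N6
open scoped Pointwise ENNReal NNReal

section

variable {F : Type} [NontriviallyNormedField F]

theorem smul_ball (g : Fˣ) : g • {x : F | ‖x‖ ≤ 1} = {x : F | ‖x‖ ≤ ‖(g : F)‖} := by
  ext y
  rw [Set.mem_smul_set_iff_inv_smul_mem]
  simp only [Set.mem_ofPred_eq, Units.smul_def, smul_eq_mul, norm_mul, Units.val_inv_eq_inv_val,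
    norm_inv]
  have hg : 0 < ‖(g : F)‖ := norm_pos_iff.2 g.ne_zero
  rw [inv_mul_le_iff₀ hg, mul_one]

theorem smul_box {ι : Type} (g : Fˣ) : g • {z : ι → F | ∀ i, ‖z i‖ ≤ 1} =
    {z : ι → F | ∀ i, ‖z i‖ ≤ ‖(g : F)‖} := by
  ext y
  rw [Set.mem_smul_set_iff_inv_smul_mem]
  simp only [Set.mem_ofPred_eq, Units.smul_def, smul_eq_mul, norm_mul, Units.val_inv_eq_inv_val,
    norm_inv, Pi.smul_apply]
  have hg : 0 < ‖(g : F)‖ := norm_pos_iff.2 g.ne_zero
  refine forall_congr' fun i => ?_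
  rw [inv_mul_le_iff₀ hg, mul_one]

variable [ProperSpace F] [MeasurableSpace F] [BorelSpace F]

omit [BorelSpace F] in
theorem sigmaFinite_dat (D : Dat F) : SigmaFinite D.μ := by
  have := D.haar
  infer_instance

theorem char_p (D : Dat F) : ((distribHaarChar F (Units.mk0 D.p D.p0) : ℝ≥0) : ℝ≥0∞) =
    (D.q : ℝ≥0∞)⁻¹ := by
  have := D.haar
  have h := distribHaarChar_mul D.μ (Units.mk0 D.p D.p0) {x : F | ‖x‖ ≤ 1}
  rwa [D.one, mul_one, smul_ball, Units.val_mk0, D.idx] at h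

/-- the volume of a ball in one variable -/
theorem ball_one (D : Dat F) (m : ℕ) : D.μ {x : F | ‖x‖ ≤ ‖D.p‖ ^ m} =
    ((D.q : ℝ≥0∞)⁻¹) ^ m := by
  have := D.haar
  have h := distribHaarChar_mul D.μ ((Units.mk0 D.p D.p0) ^ m) {x : F | ‖x‖ ≤ 1}
  rw [D.one, mul_one, smul_ball, map_pow, ENNReal.coe_pow, char_p, Units.val_pow_eq_pow_val,
    Units.val_mk0, norm_pow] at h
  exact h.symm

omit [BorelSpace F] in
/-- the volume of a box -/
theorem pi_box (D : Dat F) {ι : Type} [Fintype ι] (r : ℝ) :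
    Measure.pi (fun _ : ι => D.μ) {z : ι → F | ∀ i, ‖z i‖ ≤ r} =
      (D.μ {x : F | ‖x‖ ≤ r}) ^ Fintype.card ι := by
  have := sigmaFinite_dat D
  have h1 : {z : ι → F | ∀ i, ‖z i‖ ≤ r} = Set.pi Set.univ (fun _ : ι => {x : F | ‖x‖ ≤ r}) := by
    ext z
    simp
  rw [h1, Measure.pi_pi, Finset.prod_const, Finset.card_univ]

theorem pi_ball (D : Dat F) {ι : Type} [Fintype ι] (m : ℕ) :
    Measure.pi (fun _ : ι => D.μ) {z : ι → F | ∀ i, ‖z i‖ ≤ ‖D.p‖ ^ m} =
      (((D.q : ℝ≥0∞) ^ Fintype.card ι) ^ m)⁻¹ := by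
  rw [pi_box, ball_one, ← ENNReal.inv_pow, ← ENNReal.inv_pow, ← pow_mul, ← pow_mul, mul_comm]

/-- scaling of the volume -/
theorem pi_scale (D : Dat F) {ι : Type} [Fintype ι] (A : Set (ι → F)) (k : ℕ) (x : F)
    (hx : ‖x‖ = ‖D.p‖ ^ k) : Measure.pi (fun _ : ι => D.μ) ((fun z => x • z) ⁻¹' A) =
      ((D.q : ℝ≥0∞) ^ Fintype.card ι) ^ k * Measure.pi (fun _ : ι => D.μ) A := by
  have := D.haar
  have hx0 : x ≠ 0 := by
    rw [← norm_pos_iff, hx]
    exact pow_pos (norm_pos_iff.2 D.p0) k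
  set g : Fˣ := Units.mk0 x hx0 with hg
  set ν : Measure (ι → F) := Measure.pi (fun _ : ι => D.μ) with hν
  have h1 := distribHaarChar_mul ν g {z : ι → F | ∀ i, ‖z i‖ ≤ 1}
  have h2 := distribHaarChar_mul ν g ((fun z => x • z) ⁻¹' A)
  have h3 : g • ((fun z : ι → F => x • z) ⁻¹' A) = A := by
    ext y
    rw [Set.mem_smul_set_iff_inv_smul_mem, Set.mem_preimage]
    have h4 : x • (g⁻¹ • y) = y := by
      have h5 : x • (g⁻¹ • y) = g • (g⁻¹ • y) := rfl
      rw [h5, smul_inv_smul]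
    rw [h4]
  have h6 : ν {z : ι → F | ∀ i, ‖z i‖ ≤ 1} = 1 := by
    rw [hν, pi_box, D.one, one_pow]
  rw [h6, mul_one, smul_box] at h1
  have h7 : ‖(g : F)‖ = ‖D.p‖ ^ k := by rw [hg, Units.val_mk0, hx]
  rw [h7, hν, pi_ball] at h1
  rw [h3, h1] at h2
  have hq : (D.q : ℝ≥0∞) ≠ 0 := by
    have := D.hq
    exact_mod_cast (by omega : D.q ≠ 0)
  rw [← h2, ← mul_assoc, ENNReal.mul_inv_cancel, one_mul]
  · exact pow_ne_zero _ (pow_ne_zero _ hq)
  · exact ENNReal.pow_ne_top (ENNReal.pow_ne_top (ENNReal.natCast_ne_top _))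

end

theorem pf_BAL : T_BAL := by
  intro F _ _ _ _ _ D ι _
  have := D.haar
  refine ⟨fun m => ?_, fun A c => ?_, fun A k x hx => ?_, fun A B hAB hB => ?_,
    fun A B hA hB hbA hbB hd => ?_, fun A hA hne hb => ?_⟩
  · unfold vol
    rw [pi_ball, ENNReal.toReal_inv, ENNReal.toReal_pow, ENNReal.toReal_pow,
      ENNReal.toReal_natCast]
  · unfold vol
    rw [measure_preimage_add_right]
  · unfold vol
    rw [pi_scale D A k x hx, ENNReal.toReal_mul, ENNReal.toReal_pow, ENNReal.toReal_pow,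
      ENNReal.toReal_natCast]
  · exact ENNReal.toReal_mono hB.measure_lt_top.ne (measure_mono hAB)
  · unfold vol
    rw [measure_union hd hB.measurableSet, ENNReal.toReal_add hbA.measure_lt_top.ne
      hbB.measure_lt_top.ne]
  · exact ENNReal.toReal_pos (hA.measure_pos _ hne).ne' hb.measure_lt_top.ne

end Pool.Agent.H14.N6D
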