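import Pool.Agent.H14.N6D.BAL

/-!
# Linear changes of variables over a locally compact ultrametric field
-/

set_option autoImplicit false

namespace Pool.Agent.H14.N6D

open MeasureTheory Pool.Agent.H28.N6
open scoped ENNReal NNReal

section

variable {F : Type} [NontriviallyNormedField F] [IsUltrametricDist F] {ι : Type} [Fintype ι]

theorem norm_mulVec_le (M : Matrix ι ι F) (hM : ∀ i j, ‖M i j‖ ≤ 1) (z : ι → F)
    (hz : ∀ i, ‖z i‖ ≤ 1) (i : ι) : ‖M.mulVec z i‖ ≤ 1 := by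
  unfold Matrix.mulVec dotProduct
  refine IsUltrametricDist.norm_sum_le_of_forall_le_of_nonneg zero_le_one fun j _ => ?_
  rw [norm_mul]
  exact mul_le_one₀ (hM i j) (norm_nonneg _) (hz j)

variable [DecidableEq ι]

theorem norm_det_le (M : Matrix ι ι F) (hM : ∀ i j, ‖M i j‖ ≤ 1) : ‖M.det‖ ≤ 1 := by
  rw [Matrix.det_apply']
  refine IsUltrametricDist.norm_sum_le_of_forall_le_of_nonneg zero_le_one fun σ _ => ?_
  rw [norm_mul, norm_prod]
  have h1 : ‖((σ.sign : ℤ) : F)‖ ≤ 1 := by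
    rcases Int.units_eq_one_or σ.sign with h | h <;> rw [h] <;> simp
  have h2 : ∏ i, ‖M (σ i) i‖ ≤ 1 :=
    Finset.prod_le_one (fun i _ => norm_nonneg _) (fun i _ => hM _ _)
  exact mul_le_one₀ h1 (Finset.prod_nonneg fun i _ => norm_nonneg _) h2

theorem norm_adj_le (M : Matrix ι ι F) (hM : ∀ i j, ‖M i j‖ ≤ 1) (i j : ι) :
    ‖M.adjugate i j‖ ≤ 1 := by
  rw [Matrix.adjugate_apply]
  refine norm_det_le _ fun a b => ?_
  rw [Matrix.updateRow_apply]
  split_ifs
  · rw [Pi.single_apply]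
    split_ifs <;> simp
  · exact hM a b

theorem inGL_box (U : Matrix ι ι F) (hU : InGL U) (z : ι → F) :
    (∀ i, ‖U.mulVec z i‖ ≤ 1) ↔ ∀ i, ‖z i‖ ≤ 1 := by
  constructor
  · intro h i
    have h1 : U.adjugate.mulVec (U.mulVec z) = U.det • z := by
      rw [Matrix.mulVec_mulVec, Matrix.adjugate_mul, Matrix.smul_mulVec, Matrix.one_mulVec]
    have h2 := norm_mulVec_le U.adjugate (norm_adj_le U hU.1) _ h i
    rw [h1, Pi.smul_apply, smul_eq_mul, norm_mul, hU.2, one_mul] at h2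
    exact h2
  · exact norm_mulVec_le U hU.1 z

/-- an invertible matrix as a homeomorphism -/
noncomputable def matEquiv (U : Matrix ι ι F) (hU : U.det ≠ 0) : (ι → F) ≃ₜ+ (ι → F) where
  toFun z := U.mulVec z
  invFun z := U⁻¹.mulVec z
  left_inv z := by
    change U⁻¹.mulVec (U.mulVec z) = z
    rw [Matrix.mulVec_mulVec, Matrix.nonsing_inv_mul _ (isUnit_iff_ne_zero.2 hU),
      Matrix.one_mulVec]
  right_inv z := by
    change U.mulVec (U⁻¹.mulVec z) = z
    rw [Matrix.mulVec_mulVec, Matrix.mul_nonsing_inv _ (isUnit_iff_ne_zero.2 hU),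
      Matrix.one_mulVec]
  map_add' a b := Matrix.mulVec_add U a b
  continuous_toFun := Continuous.matrix_mulVec continuous_const continuous_id
  continuous_invFun := Continuous.matrix_mulVec continuous_const continuous_id

end

theorem pf_GLO (_ : T_BAL) : T_GLO := by
  intro F _ _ _ _ _ D ι _ _ U hU
  have := D.haar
  set ν : Measure (ι → F) := Measure.pi (fun _ : ι => D.μ) with hν
  have key : ∀ A : Set (ι → F), ((addEquivAddHaarChar (matEquiv U hU) : ℝ≥0) : ℝ≥0∞) *
      ν {z | U.mulVec z ∈ A} = ν A := by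
    intro A
    exact addEquivAddHaarChar_smul_preimage ν (X := A) (matEquiv U hU)
  set c : ℝ≥0 := addEquivAddHaarChar (matEquiv U hU) with hc
  have hc0 : 0 < c := addEquivAddHaarChar_pos _
  refine ⟨(c : ℝ)⁻¹, inv_pos.2 (NNReal.coe_pos.2 hc0), fun hG => ?_, fun A => ?_⟩
  · have h1 := key {z : ι → F | ∀ i, ‖z i‖ ≤ 1}
    have h2 : {z : ι → F | U.mulVec z ∈ {z : ι → F | ∀ i, ‖z i‖ ≤ 1}} =
        {z : ι → F | ∀ i, ‖z i‖ ≤ 1} := by
      ext z
      exact inGL_box U hG z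
    have h6 : ν {z : ι → F | ∀ i, ‖z i‖ ≤ 1} = 1 := by
      rw [hν, pi_box, D.one, one_pow]
    rw [h2, h6, mul_one] at h1
    have h3 : c = 1 := by exact_mod_cast h1
    rw [h3]
    simp
  · unfold vol
    have h1 := key A
    rw [← hν, ← h1, ENNReal.toReal_mul, ENNReal.coe_toReal, ← mul_assoc,
      inv_mul_cancel₀ (NNReal.coe_ne_zero.2 hc0.ne'), one_mul]

end Pool.Agent.H14.N6D
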